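import Pool.Agent.MP_0c1703_gt.H23.Cell

/-! The theorem of Brown on maps of spheres with finitely many nondegenerate fibres and the
generalized Schoenflies theorem. -/

namespace Pool.Agent.MP_0c1703_gt.H23

open Set Filter Topology Function Metric

variable {E : Type} [NormedAddCommGroup E] [NormedSpace ℝ E]

/-- Neighbourhoods of fibres are mapped onto neighbourhoods. -/
def FibOpen {X Y : Type} [TopologicalSpace X] [TopologicalSpace Y] (f : X → Y) : Prop :=
  ∀ x U, IsOpen U → (∀ z, f z = f x → z ∈ U) → f '' U ∈ 𝓝 (f x)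

theorem FibOpen.isOpenEmbedding {X Y : Type} [TopologicalSpace X] [TopologicalSpace Y] {f : X → Y}
    (h : FibOpen f) (hf : Continuous f) (hi : Injective f) : IsOpenEmbedding f :=
  .of_continuous_injective_isOpenMap hf hi fun U hU => isOpen_iff_mem_nhds.2 <| by
    rintro _ ⟨x, hx, rfl⟩
    exact h x U hU fun z hz => hi hz ▸ hx

theorem fibOpen_of_closed {X Y : Type} [TopologicalSpace X] [TopologicalSpace Y] {f : X → Y}
    (hc : IsClosedMap f) (hs : Surjective f) : FibOpen f := fun x U hU h => by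
  refine mem_of_superset ((hc _ hU.isClosed_compl).isOpen_compl.mem_nhds ?_) fun y hy => ?_
  · rintro ⟨z, hz, e⟩
    exact hz (h z e)
  · obtain ⟨z, rfl⟩ := hs y
    exact ⟨z, not_not.1 fun hz => hy ⟨z, hz, rfl⟩, rfl⟩

/-- Removing one fibre. -/
theorem remove_fibre {X : Type} [TopologicalSpace X] {f : X → E} (hf : Continuous f)
    (ho : FibOpen f) {S : Set E} (hS : S.Finite) (hi : ∀ x x', f x = f x' → x = x' ∨ f x ∈ S)
    (x₀ : X) {U : Set X} (hU : IsOpen U) (hxU : ∀ z, f z = f x₀ → z ∈ U) :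
    ∃ g : X → X, Continuous g ∧ FibOpen g ∧ range g ⊆ U ∧ (∀ z, f z = f x₀ → g z = z) ∧
      ∀ z z', g z = g z' ↔ z = z' ∨ (f z = f z' ∧ f z ≠ f x₀) := by
  classical
  set a := f x₀ with ha
  obtain ⟨r, hr, h1⟩ := Metric.mem_nhds_iff.1 (inter_mem (ho x₀ U hU hxU)
    ((hS.subset (sdiff_subset (t := {a}))).isClosed.isOpen_compl.mem_nhds fun h => h.2 rfl))
  obtain ⟨h, h2, h3, h4⟩ := into_ball a (half_pos hr)
  rw [mul_div_cancel₀ _ two_ne_zero] at h3
  have hb : ∀ y, h y ∈ ball a r := fun y => h3 ▸ mem_range_self y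
  have hha : h a = a := h4 a (mem_closedBall_self (half_pos hr).le)
  have hne : ∀ y, y ≠ a → h y ≠ a := fun y hy e => hy (h2.injective (e.trans hha.symm))
  have hun : ∀ z z', f z ∈ ball a r → f z ≠ a → f z = f z' → z = z' := fun z z' g1 g2 e =>
    (hi z z' e).resolve_right fun g3 => (h1 g1).2 ⟨g3, g2⟩
  have : Nonempty X := ⟨x₀⟩
  choose! s hsU hs using fun y (hy : y ∈ ball a r) => (h1 hy).1
  have hsc : ∀ y ∈ ball a r, y ≠ a → ContinuousAt s y := fun y g1 g2 => by
    refine (nhds_basis_opens _).tendsto_right_iff.2 fun O hO => ?_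
    have g3 := ho (s y) O hO.2 fun z hz =>
      hun (s y) z (by rwa [hs y g1]) (by rwa [hs y g1]) hz.symm ▸ hO.1
    rw [hs y g1] at g3
    filter_upwards [g3, isOpen_ball.mem_nhds g1, isOpen_ne.mem_nhds g2] with y' g4 g5 g6
    obtain ⟨o, g7, rfl⟩ := g4
    rwa [← hun o _ g5 g6 (hs _ g5).symm]
  let g : X → X := fun z => if f z = a then z else s (h (f z))
  have g0 : ∀ z, f z = a → g z = z := fun z hz => if_pos hz
  have g1 : ∀ z, f z ≠ a → g z = s (h (f z)) := fun z hz => if_neg hz
  have gf : ∀ z, f (g z) = h (f z) := fun z => by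
    by_cases hz : f z = a
    · rw [g0 z hz, hz, hha]
    · rw [g1 z hz, hs _ (hb _)]
  have gid : ∀ z, f z ∈ ball a (r / 2) → g z = z := fun z hz => by
    by_cases hz' : f z = a
    · exact g0 z hz'
    · exact (hun z _ (ball_subset_ball (half_le_self hr.le) hz) hz'
        (by rw [gf, h4 _ (ball_subset_closedBall hz)])).symm
  have hnb : ∀ z, f z = a → f ⁻¹' ball a (r / 2) ∈ 𝓝 z := fun z hz =>
    (isOpen_ball.preimage hf).mem_nhds (by simpa [hz] using hr)
  have hiff : ∀ z z', g z = g z' ↔ z = z' ∨ (f z = f z' ∧ f z ≠ a) := fun z z' => by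
    refine ⟨fun e => ?_, ?_⟩
    · have e' : f z = f z' := h2.injective (by rw [← gf, ← gf, e])
      by_cases hz : f z = a
      · exact Or.inl (by rw [← g0 z hz, e, g0 z' (e' ▸ hz)])
      · exact Or.inr ⟨e', hz⟩
    · rintro (rfl | ⟨e, hz⟩)
      · rfl
      · rw [g1 z hz, g1 z' (e ▸ hz), e]
  refine ⟨g, continuous_iff_continuousAt.2 fun z => ?_, fun z O hO hz => ?_, ?_, g0, hiff⟩
  · by_cases hz : f z = a
    · exact continuousAt_id.congr (mem_of_superset (hnb z hz) fun u hu => (gid u hu).symm)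
    · refine ((hsc _ (hb _) (hne _ hz)).comp (f := fun u => h (f u))
        (h2.continuous.comp hf).continuousAt).congr ?_
      exact mem_of_superset ((isOpen_ne.preimage hf).mem_nhds hz) fun u hu => (g1 u hu).symm
  · by_cases hz' : f z = a
    · rw [g0 z hz']
      filter_upwards [hO.mem_nhds (hz z rfl), hnb z hz'] with u g2 g3 using ⟨u, g2, gid u g3⟩
    · have g2 := h2.isOpenMap.image_mem_nhds (ho z (O ∩ f ⁻¹' {a}ᶜ)
        (hO.inter (isOpen_compl_singleton.preimage hf)) fun u hu =>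
          ⟨hz u ((hiff u z).2 (Or.inr ⟨hu, hu ▸ hz'⟩)), fun e => hz' (hu ▸ e)⟩)
      rw [← gf] at g2
      refine mem_of_superset (hf.continuousAt.preimage_mem_nhds g2) ?_
      rintro u ⟨_, ⟨o, g3, rfl⟩, g4⟩
      exact ⟨o, g3.1, hun _ _ (gf o ▸ hb _) (gf o ▸ hne _ g3.2) (by rw [gf, g4])⟩
  · rintro _ ⟨z, rfl⟩
    by_cases hz : f z = a
    · rw [g0 z hz]; exact hxU z hz
    · rw [g1 z hz]; exact hsU _ (hb _)

theorem cell_of_fibOpen (n : ℕ) : ∀ (f : E → E), Continuous f → FibOpen f → ∀ S : Finset E,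
    S.card ≤ n → (∀ x x', f x = f x' → x = x' ∨ f x ∈ S) → ∀ x₀ U, IsOpen U →
    (∀ z, f z = f x₀ → z ∈ U) →
    ∃ g : E → E, IsOpenEmbedding g ∧ (∀ z, f z = f x₀ → z ∈ range g) ∧ range g ⊆ U := by
  classical
  induction n using Nat.strong_induction_on with
  | _ n ih =>
  intro f hf ho S hn hi x₀ U hU hx
  by_cases h : ∃ x₁, f x₁ ∈ S ∧ f x₁ ≠ f x₀
  · obtain ⟨x₁, h1, h2⟩ := h
    obtain ⟨g, g1, g2, -, -, g5⟩ := remove_fibre hf ho S.finite_toSet hi x₁ isOpen_univ
      fun _ _ => trivial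
    have h3 := Finset.card_erase_lt_of_mem h1
    have h4 : ∀ z, g z = g x₀ ↔ f z = f x₀ := fun z => by
      rw [g5]
      exact ⟨fun h => h.elim (congrArg f) (·.1), fun h => Or.inr ⟨h, h ▸ h2.symm⟩⟩
    obtain ⟨k, k1, k2, k3⟩ := ih _ (h3.trans_le hn) g g1 g2
      ((S.erase (f x₁)).image fun y => g (invFun f y)) Finset.card_image_le (fun x x' e => by
        rcases (g5 x x').1 e with h | h
        · exact Or.inl h
        · refine (hi x x' h.1).imp_right fun hS => Finset.mem_image.2
            ⟨f x, Finset.mem_erase.2 ⟨h.2, hS⟩, (g5 _ _).2 (Or.inr ?_)⟩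
          rw [invFun_eq (f := f) ⟨x, rfl⟩]
          exact ⟨rfl, h.2⟩) x₀ U hU fun z hz => hx z ((h4 z).1 hz)
    exact ⟨k, k1, fun z hz => k2 z ((h4 z).2 hz), k3⟩
  · push Not at h
    obtain ⟨g, g1, g2, g3, g4, g5⟩ := remove_fibre hf ho S.finite_toSet hi x₀ hU hx
    refine ⟨g, g2.isOpenEmbedding g1 fun z z' e => ?_, fun z hz => ⟨z, g4 z hz⟩, g3⟩
    rcases (g5 z z').1 e with h' | h'
    · exact h'
    · exact (hi z z' h'.1).resolve_right fun hS => h'.2 (h z hS)

/-- Brown: the fibres of a surjection of spheres with finitely many nondegenerate fibres are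
cellular. -/
theorem brown_cellular [Nontrivial E] {M N : Type} [TopologicalSpace M] [CompactSpace M]
    [TopologicalSpace N] [T2Space N] (hM : Pun E M) (hN : Pun E N) {f : M → N}
    (hf : Continuous f) (hs : Surjective f) {S : Set N} (hS : S.Finite)
    (hi : ∀ x x', f x = f x' → x = x' ∨ f x ∈ S) (y : N) : Cellular E (f ⁻¹' {y}) := by
  classical
  have : Infinite E := Module.Free.infinite ℝ E
  have : Infinite N := (hN y).elim fun e he => .of_injective e he.1.injective
  obtain ⟨q, hq⟩ := (hS.insert y).exists_notMem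
  obtain ⟨p, rfl⟩ := hs q
  obtain ⟨e, e1, e2⟩ := hM p
  obtain ⟨e', e3, e4⟩ := hN (f p)
  have hp : ∀ z, f z ≠ f p ↔ z ∈ range e := fun z => by
    rw [e2]
    exact not_congr ⟨fun h => (hi z p h).resolve_right fun h' =>
      hq (mem_insert_of_mem _ (h ▸ h')), fun h => congrArg f h⟩
  choose f₀ h0 using fun x => show f (e x) ∈ range e' from e4 ▸ (hp _).2 (mem_range_self x)
  have hfib : ∀ x x', f₀ x = f₀ x' ↔ f (e x) = f (e x') := fun x x' => by
    rw [← h0, ← h0, e3.injective.eq_iff]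
  have hc : Continuous f₀ := e3.isInducing.continuous_iff.2 (by
    rw [show e' ∘ f₀ = f ∘ e from funext h0]; exact hf.comp e1.continuous)
  have ho : FibOpen f₀ := fun x U hU h => by
    have h1 := fibOpen_of_closed hf.isClosedMap hs (e x) (e '' U) (e1.isOpenMap U hU) fun z hz => by
      obtain ⟨u, rfl⟩ := (hp z).1 (hz ▸ (hp _).2 (mem_range_self x))
      exact ⟨u, h u ((hfib _ _).2 hz), rfl⟩
    rw [← h0] at h1
    refine mem_of_superset (e3.continuous.continuousAt.preimage_mem_nhds h1) ?_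
    rintro v ⟨_, ⟨u, hu, rfl⟩, h2⟩
    exact ⟨u, hu, e3.injective ((h0 u).trans h2)⟩
  refine ⟨(isClosed_singleton.preimage hf).isCompact, fun U hU hF => ?_⟩
  have hy : ∀ z, f z = y → z ∈ range e := fun z hz =>
    (hp z).1 fun h => hq (h ▸ hz ▸ mem_insert _ _)
  obtain ⟨z, hz⟩ := hs y
  obtain ⟨x₀, rfl⟩ := hy z hz
  obtain ⟨g, g1, g2, g3⟩ := cell_of_fibOpen _ f₀ hc ho
    (hS.preimage e3.injective.injOn).toFinset le_rfl (fun x x' h =>
      (hi _ _ ((hfib _ _).1 h)).imp (fun h => e1.injective h) fun h => by simpa [h0] using h)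
    x₀ (e ⁻¹' U) (hU.preimage e1.continuous) fun u hu => hF (((hfib _ _).1 hu).trans hz)
  refine ⟨e ∘ g, e1.comp g1, fun z' hz' => ?_, ?_⟩
  · obtain ⟨u, rfl⟩ := hy z' hz'
    obtain ⟨v, rfl⟩ := g2 u ((hfib _ _).2 (hz'.trans hz.symm))
    exact ⟨v, rfl⟩
  · rw [range_comp]; exact image_subset_iff.2 g3

/-- Brown: a surjection of spheres with finitely many nondegenerate fibres is a
near-homeomorphism relative to every closed set that misses these fibres. -/
theorem brown_near [Nontrivial E] [ProperSpace E] {M N : Type} [MetricSpace M] [CompactSpace M]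
    [MetricSpace N] [CompactSpace N] (hM : Pun E M) (hN : Pun E N) {f : M → N}
    (hf : Continuous f) (hs : Surjective f) {S : Set N} (hS : S.Finite)
    (hi : ∀ x x', f x = f x' → x = x' ∨ f x ∈ S) {A : Set M} (hA : IsClosed A)
    (hAS : ∀ x ∈ A, f x ∉ S) : NearRel A f :=
  nearRel_of_cellular hf hs hS hi (fun y _ => brown_cellular hM hN hf hs hS hi y) hA hAS

/-- Collapsing the complement of an open set to a point. -/
theorem continuous_collapse {X M N : Type} [TopologicalSpace X] [TopologicalSpace M] [T2Space M]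
    [TopologicalSpace N] [CompactSpace N] {j : X → M} (hj : IsOpenEmbedding j) {e : X → N}
    (he : IsOpenEmbedding e) {q : N} (hq : range e = {q}ᶜ) :
    Continuous (extend j e fun _ => q) := by
  refine continuous_iff_continuousAt.2 fun z => ?_
  by_cases hz : ∃ x, j x = z
  · obtain ⟨x, rfl⟩ := hz
    rw [← hj.continuousAt_iff, extend_comp hj.injective]
    exact he.continuous.continuousAt
  · rw [ContinuousAt, extend_apply' _ _ _ hz]
    refine (nhds_basis_opens _).tendsto_right_iff.2 fun O hO => ?_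
    have h1 := ((he.isInducing.isCompact_preimage' hO.2.isClosed_compl.isCompact
      (hq ▸ compl_subset_compl.2 (singleton_subset_iff.2 hO.1))).image hj.continuous).isClosed
    filter_upwards [h1.isOpen_compl.mem_nhds fun h => hz (image_subset_range _ _ h)] with u hu
    by_cases h : ∃ x, j x = u
    · obtain ⟨x, rfl⟩ := h
      rw [hj.injective.extend_apply]
      exact not_not.1 fun h => hu ⟨x, h, rfl⟩
    · rw [extend_apply' _ _ _ h]; exact hO.1

/-- The generalized Schoenflies theorem for open cells: two open cells in spheres agree on a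
compact set up to a homeomorphism. -/
theorem schoenflies_cell [Nontrivial E] [ProperSpace E] {M N : Type} [MetricSpace M]
    [CompactSpace M] [MetricSpace N] [CompactSpace N] (hM : Pun E M) (hN : Pun E N) {j : E → M}
    (hj : IsOpenEmbedding j) {e : E → N} (he : IsOpenEmbedding e) {K : Set E} (hK : IsCompact K) :
    ∃ H : M ≃ₜ N, ∀ x ∈ K, H (j x) = e x := by
  have key : ∀ {M N : Type} [MetricSpace M] [CompactSpace M] [MetricSpace N] [CompactSpace N],
      Pun E M → Pun E N → ∀ {j : E → M}, IsOpenEmbedding j → ∀ {e : E → N}, IsOpenEmbedding e →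
      ∀ q, range e = {q}ᶜ → ∃ H : M ≃ₜ N, ∀ x ∈ K, H (j x) = e x := by
    intro M N _ _ _ _ hM hN j hj e he q hq
    have h1 : ∀ x, extend j e (fun _ => q) (j x) = e x := hj.injective.extend_apply _ _
    have h2 : ∀ x, e x ≠ q := fun x => show e x ∈ ({q}ᶜ : Set N) from hq ▸ mem_range_self x
    have h3 : ∀ z, extend j e (fun _ => q) z ≠ q → ∃ x, j x = z := fun z hz =>
      not_not.1 fun h => hz (extend_apply' _ _ _ h)
    obtain ⟨H, -, hH⟩ := brown_near hM hN (continuous_collapse hj he hq) (fun y => by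
      rcases eq_or_ne y q with rfl | hy
      · by_contra h
        push Not at h
        exact noncompact_univ E (hj.isInducing.isCompact_preimage' isCompact_univ
          fun z _ => h3 z (h z))
      · obtain ⟨x, rfl⟩ : y ∈ range e := hq ▸ hy
        exact ⟨j x, h1 x⟩) (finite_singleton q) (fun z z' h => by
      by_cases hz : extend j e (fun _ => q) z = q
      · exact Or.inr hz
      · obtain ⟨x, rfl⟩ := h3 z hz
        obtain ⟨x', rfl⟩ := h3 z' (h ▸ hz)
        rw [h1, h1] at h
        exact Or.inl (congrArg j (he.injective h))) (hK.image hj.continuous).isClosed (by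
      rintro _ ⟨x, -, rfl⟩
      rw [h1]
      exact h2 x) 1 one_pos
    exact ⟨H, fun x hx => (hH _ ⟨x, hx, rfl⟩).trans (h1 x)⟩
  obtain ⟨e', e1, e2⟩ := hN (e 0)
  obtain ⟨H, h1⟩ := key hM hN hj e1 _ e2
  obtain ⟨H', h2⟩ := key hN hN he e1 _ e2
  exact ⟨H.trans H'.symm, fun x hx => by
    rw [Homeomorph.trans_apply, h1 x hx, ← h2 x hx, H'.symm_apply_apply]⟩

end Pool.Agent.MP_0c1703_gt.H23
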