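import Pool.Agent.MP_0c1703_gt.H23.Near

/-! Cellular sets, radial homeomorphisms and shrinking of finitely many cellular fibres. -/

namespace Pool.Agent.MP_0c1703_gt.H23

open Set Filter Topology Function Metric

variable {E : Type} [NormedAddCommGroup E] [NormedSpace ℝ E]

variable (E) in
/-- A compact set every neighbourhood of which contains an open cell containing the set. -/
def Cellular {M : Type} [TopologicalSpace M] (F : Set M) : Prop :=
  IsCompact F ∧ ∀ U, IsOpen U → F ⊆ U →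
    ∃ g : E → M, IsOpenEmbedding g ∧ F ⊆ range g ∧ range g ⊆ U

variable (E) in
/-- The complement of every point is an open cell. -/
def Pun (M : Type) [TopologicalSpace M] : Prop :=
  ∀ p : M, ∃ e : E → M, IsOpenEmbedding e ∧ range e = {p}ᶜ

omit [NormedSpace ℝ E] in
theorem Pun.homeo {M N : Type} [TopologicalSpace M] [TopologicalSpace N] (h : Pun E M)
    (k : M ≃ₜ N) : Pun E N := fun p => by
  obtain ⟨e, h1, h2⟩ := h (k.symm p)
  refine ⟨k ∘ e, k.isOpenEmbedding.comp h1, ?_⟩
  rw [range_comp, h2, k.image_compl]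
  simp

theorem pun_sphere (n : ℕ) :
    Pun (EuclideanSpace ℝ (Fin n)) (sphere (0 : EuclideanSpace ℝ (Fin (n + 1))) 1) := fun p => by
  have : Fact (Module.finrank ℝ (EuclideanSpace ℝ (Fin (n + 1))) = n + 1) := ⟨by simp⟩
  refine ⟨(stereographic' n p).symm, (stereographic' n p).symm.isOpenEmbedding (by simp), ?_⟩
  have := (stereographic' n p).symm.image_source_eq_target
  simpa using this

omit [NormedSpace ℝ E] in
theorem Cellular.image {M N : Type} [TopologicalSpace M] [TopologicalSpace N] {F : Set M}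
    (h : Cellular E F) {e : M → N} (he : IsOpenEmbedding e) : Cellular E (e '' F) := by
  refine ⟨h.1.image he.continuous, fun U hU hF => ?_⟩
  obtain ⟨g, h1, h2, h3⟩ := h.2 (e ⁻¹' U) (hU.preimage he.continuous) (image_subset_iff.1 hF)
  refine ⟨e ∘ g, he.comp h1, ?_, ?_⟩
  · rw [range_comp]; exact image_mono h2
  · rw [range_comp]; exact image_subset_iff.2 h3

/-- Radial maps. -/
noncomputable def rad (ψ : ℝ → ℝ) (x : E) : E := (ψ ‖x‖ / ‖x‖) • x

theorem norm_rad (ψ : ℝ ≃o ℝ) (h0 : ψ 0 = 0) (x : E) : ‖rad ψ x‖ = ψ ‖x‖ := by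
  rcases eq_or_ne x 0 with rfl | hx
  · simp [rad, h0]
  have h1 : 0 ≤ ψ ‖x‖ := h0 ▸ ψ.monotone (norm_nonneg x)
  rw [rad, norm_smul, Real.norm_of_nonneg (by positivity), div_mul_cancel₀ _ (norm_ne_zero_iff.2 hx)]

theorem continuous_rad (ψ : ℝ ≃o ℝ) (h0 : ψ 0 = 0) : Continuous (rad ψ : E → E) := by
  have hc := ψ.continuous
  refine continuous_iff_continuousAt.2 fun x => ?_
  rcases eq_or_ne x 0 with rfl | hx
  · rw [ContinuousAt, show rad ψ (0 : E) = 0 by simp [rad], tendsto_zero_iff_norm_tendsto_zero]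
    simp only [norm_rad ψ h0]
    exact (hc.comp continuous_norm).tendsto' 0 0 (by simpa using h0)
  · exact (((hc.comp continuous_norm).continuousAt).div continuous_norm.continuousAt
      (norm_ne_zero_iff.2 hx)).smul continuousAt_id

theorem rad_rad (ψ : ℝ ≃o ℝ) (h0 : ψ 0 = 0) (x : E) : rad ψ.symm (rad ψ x) = x := by
  rcases eq_or_ne x 0 with rfl | hx
  · simp [rad]
  have h1 : 0 < ψ ‖x‖ := h0 ▸ ψ.strictMono (norm_pos_iff.2 hx)
  have h2 := norm_ne_zero_iff.2 hx
  rw [rad, norm_rad ψ h0, ψ.symm_apply_apply, rad, smul_smul, div_mul_div_cancel₀ h1.ne',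
    div_self h2, one_smul]

theorem exists_rad (ψ : ℝ → ℝ) (hm : StrictMono ψ) (hs : Surjective ψ)
    (h0 : ψ 0 = 0) : ∃ k : E ≃ₜ E, ∀ x, ‖k x‖ = ψ ‖x‖ ∧ k x = (ψ ‖x‖ / ‖x‖) • x := by
  let φ := hm.orderIsoOfSurjective ψ hs
  have h1 : φ 0 = 0 := h0
  have h2 : φ.symm 0 = 0 := φ.symm_apply_eq.2 h1.symm
  exact ⟨⟨⟨rad φ, rad φ.symm, rad_rad φ h1, rad_rad φ.symm h2⟩, continuous_rad φ h1,
    continuous_rad φ.symm h2⟩, fun x => ⟨norm_rad φ h1 x, rfl⟩⟩

/-- A compactly supported homeomorphism that moves a large ball into a small one. -/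
theorem squeeze {r R R' : ℝ} (hr : 0 < r) (hR : 0 < R) (hR' : R < R') :
    ∃ k : E ≃ₜ E, (∀ x, R' ≤ ‖x‖ → k x = x) ∧ ∀ x, ‖x‖ ≤ R → ‖k x‖ ≤ r := by
  obtain ⟨l, l0, l1, l2⟩ : ∃ l : ℝ, 0 < l ∧ l ≤ 1 ∧ l * R ≤ r :=
    ⟨min 1 (r / R), by positivity, min_le_left _ _, (le_div_iff₀ hR).1 (min_le_right _ _)⟩
  obtain ⟨a, a1, a2⟩ : ∃ a : ℝ, 1 ≤ a ∧ a * (R' - R) = R' :=
    ⟨R' / (R' - R), (one_le_div (by linarith)).2 (by linarith), div_mul_cancel₀ _ (by linarith)⟩
  let ψ : ℝ → ℝ := fun t => max (l * t) (min t (R' + a * (t - R')))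
  have hc : Continuous ψ := by fun_prop
  have hl : Tendsto (fun t : ℝ => l * t) atTop atTop := tendsto_id.const_mul_atTop l0
  have hb : Tendsto (fun t : ℝ => l * t) atBot atBot := tendsto_id.const_mul_atBot l0
  obtain ⟨k, hk⟩ := exists_rad (E := E) ψ (fun s t h => max_lt_max (by nlinarith)
    (min_lt_min h (by nlinarith))) (hc.surjective (tendsto_atTop_mono (fun t => le_max_left _ _) hl)
      (tendsto_atBot_mono' _ ((eventually_le_atBot 0).mono fun t ht =>
        max_le le_rfl ((min_le_left _ _).trans (by nlinarith))) hb)) (by simp [ψ])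
  refine ⟨k, fun x hx => ?_, fun x hx => ?_⟩
  · have h1 : ψ ‖x‖ = ‖x‖ := by
      simp only [ψ]
      rw [min_eq_left (by nlinarith), max_eq_right (by nlinarith)]
    rw [(hk x).2, h1, div_self (by linarith), one_smul]
  · rw [(hk x).1]
    exact max_le (by nlinarith) ((min_le_right _ _).trans (by nlinarith))

/-- An open embedding into a ball that is the identity on a smaller ball. -/
theorem into_ball (a : E) {r : ℝ} (hr : 0 < r) : ∃ h : E → E, IsOpenEmbedding h ∧
    range h = ball a (2 * r) ∧ ∀ x ∈ closedBall a r, h x = x := by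
  have key : ∃ h : E → E, IsOpenEmbedding h ∧ range h = ball 0 2 ∧ ∀ x, ‖x‖ ≤ 1 → h x = x := by
    have m1 : ∀ x : E, 1 ≤ max 1 ‖x‖ := fun x => le_max_left _ _
    have n1 : ∀ x : E, max 1 ‖((2 - (max 1 ‖x‖)⁻¹) / max 1 ‖x‖) • x‖ = 2 - (max 1 ‖x‖)⁻¹ := by
      intro x
      rcases le_total ‖x‖ 1 with h | h
      · rw [max_eq_left h]; norm_num [h]
      · have h1 := inv_le_one_of_one_le₀ h
        rw [max_eq_right h, norm_smul, Real.norm_of_nonneg (div_nonneg (by linarith) (by linarith)),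
          div_mul_cancel₀ _ (by linarith), max_eq_right (by linarith)]
    have n2 : ∀ y : E, ‖y‖ < 2 →
        max 1 ‖(max 1 ‖y‖ * (2 - max 1 ‖y‖))⁻¹ • y‖ = (2 - max 1 ‖y‖)⁻¹ := by
      intro y hy
      rcases le_total ‖y‖ 1 with h | h
      · rw [max_eq_left h]; norm_num [h]
      · have h1 : 0 < 2 - ‖y‖ := by linarith
        rw [max_eq_right h, norm_smul, Real.norm_of_nonneg (by positivity), mul_inv, mul_right_comm,
          inv_mul_cancel₀ (by linarith), one_mul, max_eq_right ((one_le_inv₀ h1).2 (by linarith))]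
    let e : OpenPartialHomeomorph E E :=
      { toFun := fun x => ((2 - (max 1 ‖x‖)⁻¹) / max 1 ‖x‖) • x
        invFun := fun y => (max 1 ‖y‖ * (2 - max 1 ‖y‖))⁻¹ • y
        source := univ
        target := ball 0 2
        map_source' := fun x _ => by
          have h1 : 0 < (max 1 ‖x‖)⁻¹ := by positivity
          exact mem_ball_zero_iff.2 (((le_max_right _ _).trans (n1 x).le).trans_lt (by linarith))
        map_target' := fun _ _ => trivial
        left_inv' := fun x _ => by
          have h1 := inv_le_one_of_one_le₀ (m1 x)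
          have h2 : 2 - (max 1 ‖x‖)⁻¹ ≠ 0 := by linarith
          rw [n1, smul_smul, sub_sub_cancel, ← div_eq_mul_inv, inv_mul_cancel₀ (by positivity),
            one_smul]
        right_inv' := fun y hy => by
          have h1 : 0 < 2 - max 1 ‖y‖ := sub_pos.2 (max_lt one_lt_two (mem_ball_zero_iff.1 hy))
          rw [n2 y (mem_ball_zero_iff.1 hy), smul_smul, inv_inv, sub_sub_cancel, div_inv_eq_mul,
            mul_inv_cancel₀ (by positivity), one_smul]
        open_source := isOpen_univ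
        open_target := isOpen_ball
        continuousOn_toFun := Continuous.continuousOn (Continuous.smul (Continuous.div
          (continuous_const.sub (Continuous.inv₀ (by fun_prop) fun x => by positivity))
          (by fun_prop) fun x => by positivity) continuous_id)
        continuousOn_invFun := ContinuousOn.smul (ContinuousOn.inv₀ (by fun_prop) fun y hy => by
          have h1 : 0 < 2 - max 1 ‖y‖ := sub_pos.2 (max_lt one_lt_two (mem_ball_zero_iff.1 hy))
          positivity) continuousOn_id }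
    refine ⟨e, e.isOpenEmbedding rfl, image_univ.symm.trans e.image_source_eq_target, fun x hx => ?_⟩
    change ((2 - (max 1 ‖x‖)⁻¹) / max 1 ‖x‖) • x = x
    rw [max_eq_left hx]
    norm_num
  obtain ⟨h, h1, h2, h3⟩ := key
  let s : E ≃ₜ E := (Homeomorph.smulOfNeZero r hr.ne').trans (Homeomorph.addRight a)
  have hs : ∀ x, s x = r • x + a := fun _ => rfl
  have hn : ∀ x, dist (s x) a = r * ‖x‖ := fun x => by
    rw [hs, dist_eq_norm, add_sub_cancel_right, norm_smul, Real.norm_of_nonneg hr.le]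
  refine ⟨s ∘ h ∘ s.symm, s.isOpenEmbedding.comp (h1.comp s.symm.isOpenEmbedding), ?_, fun x hx => ?_⟩
  · rw [range_comp, s.symm.surjective.range_comp, h2]
    ext y
    obtain ⟨y, rfl⟩ := s.surjective y
    rw [s.injective.mem_set_image, mem_ball, mem_ball, hn, dist_zero_right, mul_comm,
      mul_lt_mul_iff_left₀ hr]
  · obtain ⟨x, rfl⟩ := s.surjective x
    rw [mem_closedBall, hn] at hx
    simp only [comp_apply, Homeomorph.symm_apply_apply]
    rw [h3 x (by nlinarith)]

/-- Extension by the identity of a compactly supported homeomorphism. -/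
theorem ext_id {X M : Type} [TopologicalSpace X] [TopologicalSpace M] [T2Space M] {g : X → M}
    (hg : IsOpenEmbedding g) {K : Set X} (hK : IsCompact K) (k : X ≃ₜ X)
    (hk : ∀ x ∉ K, k x = x) :
    ∃ H : M ≃ₜ M, (∀ x, H (g x) = g (k x)) ∧ ∀ z ∉ g '' K, H z = z := by
  have h1 : ∀ (k : X → X) x, extend g (g ∘ k) id (g x) = g (k x) := fun k x =>
    hg.injective.extend_apply _ _ _
  have h2 : ∀ k : X → X, (∀ x ∉ K, k x = x) → ∀ z ∉ g '' K, extend g (g ∘ k) id z = z := by
    intro k hk z hz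
    by_cases h : ∃ x, g x = z
    · obtain ⟨x, rfl⟩ := h
      rw [h1, hk x fun hx => hz ⟨x, hx, rfl⟩]
    · exact extend_apply' _ _ _ h
  have h3 : ∀ k : X → X, Continuous k → (∀ x ∉ K, k x = x) →
      Continuous (extend g (g ∘ k) id) := by
    intro k hc hk
    refine continuous_iff_continuousAt.2 fun z => ?_
    by_cases hz : z ∈ g '' K
    · obtain ⟨x, -, rfl⟩ := hz
      rw [← hg.continuousAt_iff, show extend g (g ∘ k) id ∘ g = g ∘ k from funext (h1 k)]
      exact (hg.continuous.comp hc).continuousAt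
    · exact continuousAt_id.congr (mem_of_superset
        ((hK.image hg.continuous).isClosed.isOpen_compl.mem_nhds hz) fun z hz => (h2 k hk z hz).symm)
  have h4 : ∀ k : X ≃ₜ X, LeftInverse (extend g (g ∘ k.symm) id) (extend g (g ∘ k) id) := by
    intro k z
    by_cases h : ∃ x, g x = z
    · obtain ⟨x, rfl⟩ := h
      rw [h1, h1, k.symm_apply_apply]
    · rw [extend_apply' _ _ _ h, id, extend_apply' _ _ _ h, id]
  have hk' : ∀ x ∉ K, k.symm x = x := fun x hx => k.symm_apply_eq.2 (hk x hx).symm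
  exact ⟨⟨⟨_, _, h4 k, h4 k.symm⟩, h3 k k.continuous hk, h3 k.symm k.symm.continuous hk'⟩,
    h1 k, h2 k hk⟩

variable [ProperSpace E]

/-- A cellular set can be shrunk inside any neighbourhood. -/
theorem Cellular.shrink {M : Type} [MetricSpace M] {F U : Set M} (h : Cellular E F)
    (hU : IsOpen U) (hF : F ⊆ U) {ε : ℝ} (hε : 0 < ε) :
    ∃ k : M ≃ₜ M, (∀ x ∉ U, k x = x) ∧ ∀ x ∈ F, ∀ x' ∈ F, dist (k x) (k x') < ε := by
  obtain ⟨g, h1, h2, h3⟩ := h.2 U hU hF
  obtain ⟨R, hR, h4⟩ := (h1.isInducing.isCompact_preimage' h.1 h2).isBounded.subset_closedBall_lt 0 0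
  obtain ⟨δ, hδ, h5⟩ := Metric.continuousAt_iff.1 (h1.continuous.continuousAt (x := 0)) (ε / 2)
    (half_pos hε)
  obtain ⟨k, h6, h7⟩ := squeeze (E := E) (half_pos hδ) hR (lt_add_one R)
  obtain ⟨H, h8, h9⟩ := ext_id h1 (isCompact_closedBall 0 (R + 1)) k fun x hx =>
    h6 x (not_le.1 (mt mem_closedBall_zero_iff.2 hx)).le
  have key : ∀ x ∈ F, dist (H x) (g 0) < ε / 2 := fun x hx => by
    obtain ⟨u, rfl⟩ := h2 hx
    rw [h8]
    refine h5 ?_
    rw [dist_zero_right]
    exact (h7 u (mem_closedBall_zero_iff.1 (h4 hx))).trans_lt (half_lt_self hδ)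
  refine ⟨H, fun x hx => h9 x fun h => hx (h3 (image_subset_range _ _ h)), fun x hx x' hx' => ?_⟩
  have := dist_triangle_right (H x) (H x') (g 0)
  have := key x hx
  have := key x' hx'
  linarith

/-- A surjection with finitely many nondegenerate fibres, all cellular, is a near-homeomorphism
relative to every closed set that misses these fibres. -/
theorem nearRel_of_cellular {M Y : Type} [MetricSpace M] [CompactSpace M] [MetricSpace Y]
    [CompactSpace Y] {f : M → Y} (hf : Continuous f) (hs : Surjective f) {S : Set Y}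
    (hS : S.Finite) (hi : ∀ x x', f x = f x' → x = x' ∨ f x ∈ S)
    (hc : ∀ y ∈ S, Cellular E (f ⁻¹' {y})) {A : Set M} (hA : IsClosed A) (hAS : ∀ x ∈ A, f x ∉ S) :
    NearRel A f := by
  refine bing_rel A hf hs fun ε hε => ?_
  obtain ⟨δ, hδ, h1, h2⟩ : ∃ δ > 0, 2 * δ ≤ ε ∧ ∀ y ∈ S, ∀ y' ∈ S, y ≠ y' → 2 * δ ≤ dist y y' := by
    have h1 : ∀ᶠ δ in 𝓝[>] (0 : ℝ), ∀ p ∈ S ×ˢ S, p.1 ≠ p.2 → 2 * δ ≤ dist p.1 p.2 := by
      refine (eventually_all_finite (hS.prod hS)).2 fun p _ => ?_
      by_cases h : p.1 = p.2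
      · simp [h]
      · filter_upwards [Ioo_mem_nhdsGT (half_pos (dist_pos.2 h))] with δ hδ _
        linarith [hδ.2]
    obtain ⟨δ, h2, h3⟩ := (h1.and (Ioo_mem_nhdsGT (half_pos hε))).exists
    exact ⟨δ, h3.1, by linarith [h3.2], fun y hy y' hy' => h2 (y, y') ⟨hy, hy'⟩⟩
  have key : ∀ T : Set Y, T.Finite → T ⊆ S → ∃ k : M ≃ₜ M,
      (∀ x, (x ∈ A ∨ ∀ y ∈ T, f x ∉ ball y δ) → k x = x) ∧
      (∀ y ∈ T, ∀ x, f x ∈ ball y δ → f (k x) ∈ ball y δ) ∧
      ∀ y ∈ T, ∀ x x', f x = y → f x' = y → dist (k x) (k x') < ε := by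
    intro T hT
    induction T, hT using Set.Finite.induction_on with
    | empty => exact fun _ => ⟨Homeomorph.refl M, fun _ _ => rfl, by simp, by simp⟩
    | @insert b T hb _ ih =>
      intro hTS
      obtain ⟨k, g1, g2, g3⟩ := ih ((subset_insert _ _).trans hTS)
      have hbS := hTS (mem_insert _ _)
      obtain ⟨k', g4, g5⟩ := (hc b hbS).shrink (U := f ⁻¹' ball b δ \ A)
        ((isOpen_ball.preimage hf).sdiff hA) (fun x (hx : f x = b) =>
          ⟨by simpa [hx] using hδ, fun h => hAS x h (hx ▸ hbS)⟩) hε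
      have hd : ∀ y ∈ T, ∀ z, z ∈ ball b δ → z ∉ ball y δ := fun y hy z h h' => by
        have := h2 b hbS y (hTS (mem_insert_of_mem _ hy)) fun e => hb (e ▸ hy)
        have := dist_triangle_left b y z
        linarith [mem_ball.1 h, mem_ball.1 h']
      have g6 : ∀ x, f x ∈ ball b δ → f (k' x) ∈ ball b δ := fun x hx => by
        by_contra h
        rw [k'.injective (g4 (k' x) fun h' => h h'.1)] at h
        exact h hx
      have g7 : ∀ x, f x ∈ ball b δ → k (k' x) = k' x := fun x hx =>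
        g1 _ (Or.inr fun y hy => hd y hy _ (g6 x hx))
      have g8 : ∀ y ∈ T, ∀ x, f x ∈ ball y δ → k' x = x := fun y hy x hx =>
        g4 x fun h => hd y hy _ h.1 hx
      refine ⟨k'.trans k, fun x hx => ?_, forall_mem_insert.2 ⟨fun x hx => ?_, fun y hy x hx => ?_⟩,
        forall_mem_insert.2 ⟨fun x x' e e' => ?_, fun y hy x x' e e' => ?_⟩⟩ <;>
        simp only [Homeomorph.trans_apply]
      · rw [g4 x fun h => hx.elim h.2 fun h' => h' b (mem_insert _ _) h.1]
        exact g1 x (hx.imp_right fun h y hy => h y (mem_insert_of_mem _ hy))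
      · rw [g7 x hx]; exact g6 x hx
      · rw [g8 y hy x hx]; exact g2 y hy x hx
      · rw [g7 x (by simpa [e] using hδ), g7 x' (by simpa [e'] using hδ)]
        exact g5 x e x' e'
      · rw [g8 y hy x (by simpa [e] using hδ), g8 y hy x' (by simpa [e'] using hδ)]
        exact g3 y hy x x' e e'
  obtain ⟨k, g1, g2, g3⟩ := key S hS Subset.rfl
  refine ⟨k, fun x hx => g1 x (Or.inl hx), fun x => ?_, fun x x' e => ?_⟩
  · by_cases h : ∃ y ∈ S, f x ∈ ball y δ
    · obtain ⟨y, hy, h⟩ := h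
      have := dist_triangle_right (f (k x)) (f x) y
      linarith [mem_ball.1 h, mem_ball.1 (g2 y hy x h)]
    · push Not at h
      simpa [g1 x (Or.inr h)] using hε
  · rcases hi x x' e with rfl | h
    · simpa using hε
    · exact g3 _ h x x' rfl e.symm

end Pool.Agent.MP_0c1703_gt.H23
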