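import Mathlib

/-! Near-homeomorphisms: the shrinking criterion of Bing and the inverse limit theorem of Brown. -/

namespace Pool.Agent.MP_0c1703_gt.H23

open Set Filter Topology Function

/-- A uniform limit of homeomorphisms that agree with `f` on `A`. -/
def NearRel {X Y : Type} [TopologicalSpace X] [PseudoMetricSpace Y] (A : Set X) (f : X → Y) :
    Prop :=
  ∀ ε > 0, ∃ h : X ≃ₜ Y, (∀ x, dist (h x) (f x) < ε) ∧ ∀ x ∈ A, h x = f x

/-- A uniform limit of homeomorphisms. -/
def Near {X Y : Type} [TopologicalSpace X] [PseudoMetricSpace Y] (f : X → Y) : Prop :=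
  ∀ ε > 0, ∃ h : X ≃ₜ Y, ∀ x, dist (h x) (f x) < ε

section Basic

variable {X Y Z : Type}

theorem NearRel.near [TopologicalSpace X] [PseudoMetricSpace Y] {A : Set X} {f : X → Y}
    (h : NearRel A f) : Near f := fun ε hε => (h ε hε).imp fun _ h => h.1

theorem nearRel_empty [TopologicalSpace X] [PseudoMetricSpace Y] {f : X → Y} :
    NearRel ∅ f ↔ Near f :=
  ⟨NearRel.near, fun h ε hε => (h ε hε).imp fun _ h => ⟨h, by simp⟩⟩

theorem NearRel.mono [TopologicalSpace X] [PseudoMetricSpace Y] {A B : Set X} {f : X → Y}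
    (h : NearRel A f) (hB : B ⊆ A) : NearRel B f :=
  fun ε hε => (h ε hε).imp fun _ h => ⟨h.1, fun x hx => h.2 x (hB hx)⟩

theorem Near.homeo [TopologicalSpace X] [PseudoMetricSpace Y] {f : X → Y} (h : Near f) :
    Nonempty (X ≃ₜ Y) := (h 1 one_pos).elim fun e _ => ⟨e⟩

theorem nearRel_homeo [TopologicalSpace X] [PseudoMetricSpace Y] (A : Set X) (e : X ≃ₜ Y) :
    NearRel A e := fun _ hε => ⟨e, fun _ => by simpa using hε, fun _ _ => rfl⟩

theorem near_homeo [TopologicalSpace X] [PseudoMetricSpace Y] (e : X ≃ₜ Y) : Near e :=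
  (nearRel_homeo ∅ e).near

theorem NearRel.comp [TopologicalSpace X] [PseudoMetricSpace Y] [PseudoMetricSpace Z]
    {A : Set X} {B : Set Y} {f : X → Y} {g : Y → Z} (hg : NearRel B g) (hf : NearRel A f)
    (hc : UniformContinuous g) (hAB : MapsTo f A B) : NearRel A (g ∘ f) := by
  intro ε hε
  obtain ⟨δ, hδ, h1⟩ := Metric.uniformContinuous_iff.1 hc (ε / 2) (half_pos hε)
  obtain ⟨k, h2, h3⟩ := hg (ε / 2) (half_pos hε)
  obtain ⟨h, h4, h5⟩ := hf δ hδ
  refine ⟨h.trans k, fun x => ?_, fun x hx => ?_⟩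
  · have := dist_triangle (k (h x)) (g (h x)) (g (f x))
    have := h2 (h x)
    have := h1 (h4 x)
    simp only [Homeomorph.trans_apply, comp_apply]
    linarith
  · simp only [Homeomorph.trans_apply, comp_apply, h5 x hx, h3 _ (hAB hx)]

theorem Near.comp [TopologicalSpace X] [PseudoMetricSpace Y] [PseudoMetricSpace Z]
    {f : X → Y} {g : Y → Z} (hg : Near g) (hf : Near f) (hc : UniformContinuous g) :
    Near (g ∘ f) :=
  ((nearRel_empty.2 hg).comp (nearRel_empty.2 hf) hc (mapsTo_empty _ _)).near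

theorem NearRel.of_approx [TopologicalSpace X] [PseudoMetricSpace Y] {A : Set X} {f : X → Y}
    (h : ∀ ε > 0, ∃ g, NearRel A g ∧ (∀ x, dist (g x) (f x) < ε) ∧ ∀ x ∈ A, g x = f x) :
    NearRel A f := by
  intro ε hε
  obtain ⟨g, h1, h2, h3⟩ := h (ε / 2) (half_pos hε)
  obtain ⟨k, h4, h5⟩ := h1 (ε / 2) (half_pos hε)
  refine ⟨k, fun x => ?_, fun x hx => (h5 x hx).trans (h3 x hx)⟩
  have := dist_triangle (k x) (g x) (f x)
  have := h2 x
  have := h4 x
  linarith

theorem Near.of_approx [TopologicalSpace X] [PseudoMetricSpace Y] {f : X → Y}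
    (h : ∀ ε > 0, ∃ g, Near g ∧ ∀ x, dist (g x) (f x) < ε) : Near f :=
  (NearRel.of_approx (A := ∅) fun ε hε =>
    (h ε hε).imp fun _ h => ⟨nearRel_empty.2 h.1, h.2, by simp⟩).near

theorem Near.surjective [TopologicalSpace X] [CompactSpace X] [MetricSpace Y] {f : X → Y}
    (h : Near f) (hf : Continuous f) : Surjective f := by
  intro y
  refine (isCompact_range hf).isClosed.closure_subset (Metric.mem_closure_iff.2 fun ε hε => ?_)
  obtain ⟨k, hk⟩ := h ε hε
  exact ⟨_, mem_range_self (k.symm y), by simpa using hk (k.symm y)⟩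

end Basic

variable {X Y : Type} [MetricSpace X] [CompactSpace X] [MetricSpace Y] [CompactSpace Y]

/-- The argument of Edwards with the Baire category theorem. -/
theorem baire_near (S : Set C(X, Y)) (hS : ∀ g ∈ S, Surjective g)
    (h : ∀ g ∈ S, ∀ ε > 0, ∀ η > 0, ∃ g' ∈ S, dist g' g < η ∧
      ∀ x x', g' x = g' x' → dist x x' < ε) :
    ∀ g ∈ S, ∀ η > 0, ∃ k : X ≃ₜ Y, (k : C(X, Y)) ∈ closure S ∧ dist (k : C(X, Y)) g < η := by
  intro g hg η hη
  have : CompleteSpace (closure S) := isClosed_closure.completeSpace_coe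
  let U : ℕ → Set (closure S) := fun n => {g | ∀ x x', g.1 x = g.1 x' → dist x x' < 1 / (n + 1)}
  have ho : ∀ n, IsOpen (U n) := fun n => by
    have h1 : IsClosed {p : closure S × (X × X) | p.1.1 p.2.1 = p.1.1 p.2.2 ∧
        1 / ((n : ℝ) + 1) ≤ dist p.2.1 p.2.2} :=
      (isClosed_eq (by fun_prop) (by fun_prop)).inter
        (isClosed_le continuous_const (continuous_dist.comp continuous_snd))
    rw [← isClosed_compl_iff]
    convert isClosedMap_fst_of_compactSpace _ h1 using 1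
    ext g
    simp only [U, mem_compl_iff, mem_ofPred_eq, mem_image, Prod.exists]
    push Not
    exact ⟨fun ⟨x, x', h⟩ => ⟨g, x, x', h, rfl⟩, fun ⟨_, x, x', h, e⟩ => ⟨x, x', e ▸ h⟩⟩
  have hd : ∀ n, Dense (U n) := fun n => Metric.dense_iff.2 fun u r hr => by
    obtain ⟨s, hs, h1⟩ := Metric.mem_closure_iff.1 u.2 (r / 2) (half_pos hr)
    obtain ⟨g', h2, h3, h4⟩ := h s hs (1 / (n + 1)) (by positivity) (r / 2) (half_pos hr)
    refine ⟨⟨g', subset_closure h2⟩, ?_, h4⟩
    have := dist_triangle_right g' u.1 s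
    rw [Metric.mem_ball, Subtype.dist_eq]
    linarith
  obtain ⟨k, h1, h2⟩ := Metric.dense_iff.1 (dense_iInter_of_isOpen ho hd)
    ⟨g, subset_closure hg⟩ η hη
  have hi : Injective k.1 := fun x x' e => by
    by_contra hne
    obtain ⟨n, hn⟩ := exists_nat_one_div_lt (dist_pos.2 hne)
    exact hn.not_gt (mem_iInter.1 h2 n x x' e)
  have hs : Surjective k.1 := fun y => by
    refine (isCompact_range k.1.continuous).isClosed.closure_subset
      (Metric.mem_closure_iff.2 fun ε hε => ?_)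
    obtain ⟨s, h3, h4⟩ := Metric.mem_closure_iff.1 k.2 ε hε
    obtain ⟨x, rfl⟩ := hS s h3 y
    exact ⟨_, mem_range_self x, dist_comm (k.1 x) _ ▸ (ContinuousMap.dist_apply_le_dist x).trans_lt h4⟩
  exact ⟨Continuous.homeoOfEquivCompactToT2 (f := Equiv.ofBijective k.1 ⟨hi, hs⟩) k.1.continuous,
    k.2, h1⟩

/-- The shrinking criterion of Bing, relative to a set `A`. -/
theorem bing_rel (A : Set X) {f : X → Y} (hf : Continuous f) (hs : Surjective f)
    (h : ∀ ε > 0, ∃ k : X ≃ₜ X, (∀ x ∈ A, k x = x) ∧ (∀ x, dist (f (k x)) (f x) < ε) ∧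
      ∀ x x', f x = f x' → dist (k x) (k x') < ε) : NearRel A f := by
  intro η hη
  let S : Set C(X, Y) := {g | ∃ k : X ≃ₜ X, (∀ x ∈ A, k x = x) ∧ ∀ x, g (k x) = f x}
  obtain ⟨k, h1, h2⟩ := baire_near S (fun g ⟨k, _, hk⟩ y => (hs y).elim fun x hx =>
      ⟨k x, (hk x).trans hx⟩) (fun g ⟨k, hA, hk⟩ ε hε η hη => by
    obtain ⟨δ, hδ, h1⟩ := Metric.uniformContinuous_iff.1
      (CompactSpace.uniformContinuous_of_continuous k.continuous) ε hε
    obtain ⟨k', h2, h3, h4⟩ := h (min δ η) (lt_min hδ hη)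
    refine ⟨⟨fun x => f ((k'.trans k).symm x), by fun_prop⟩, ⟨k'.trans k, fun x hx => ?_,
      fun x => congrArg f ((k'.trans k).symm_apply_apply x)⟩, ?_, fun x x' e => ?_⟩
    · rw [Homeomorph.trans_apply, h2 x hx, hA x hx]
    · refine (ContinuousMap.dist_lt_iff hη).2 fun x => ?_
      obtain ⟨u, rfl⟩ := (k'.trans k).surjective x
      simp only [ContinuousMap.coe_mk, Homeomorph.symm_apply_apply]
      rw [Homeomorph.trans_apply, hk, dist_comm]
      exact (h3 u).trans_le (min_le_right _ _)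
    · obtain ⟨u, rfl⟩ := (k'.trans k).surjective x
      obtain ⟨u', rfl⟩ := (k'.trans k).surjective x'
      simp only [ContinuousMap.coe_mk, Homeomorph.symm_apply_apply] at e
      exact h1 ((h4 u u' e).trans_le (min_le_left _ _)))
    ⟨f, hf⟩ ⟨Homeomorph.refl X, fun _ _ => rfl, fun _ => rfl⟩ η hη
  refine ⟨k, fun x => (ContinuousMap.dist_apply_le_dist (f := k) (g := ⟨f, hf⟩) x).trans_lt h2,
    fun x hx => ?_⟩
  have h3 : IsClosed {g : C(X, Y) | g x = f x} := isClosed_eq (by fun_prop) continuous_const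
  refine h3.closure_subset_iff.2 (fun g hg => ?_) h1
  obtain ⟨k, hA, hk⟩ := hg
  simpa [hA x hx] using hk x

/-- The shrinking criterion of Bing. -/
theorem bing {f : X → Y} (hf : Continuous f) (hs : Surjective f)
    (h : ∀ ε > 0, ∃ k : X ≃ₜ X, (∀ x, dist (f (k x)) (f x) < ε) ∧
      ∀ x x', f x = f x' → dist (k x) (k x') < ε) : Near f :=
  (bing_rel ∅ hf hs fun ε hε => (h ε hε).imp fun _ h => ⟨by simp, h⟩).near

/-- The inverse limit theorem of Brown: `X` is a compact space with compatible surjections `p n`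
that separate points, and the bonding maps are near-homeomorphisms. -/
theorem brown_limit {T : ℕ → Type} [∀ n, MetricSpace (T n)] [∀ n, CompactSpace (T n)]
    (p : ∀ n, X → T n) (f : ∀ n, T (n + 1) → T n) (hp : ∀ n, Continuous (p n))
    (hs : ∀ n, Surjective (p n)) (hc : ∀ n x, f n (p (n + 1) x) = p n x) (hf : ∀ n, Near (f n))
    (hi : ∀ x x', (∀ n, p n x = p n x') → x = x') : Near (p 0) := by
  intro η hη
  let S : Set C(X, T 0) := {g | ∃ n, ∃ k : T n ≃ₜ T 0, ∀ x, g x = k (p n x)}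
  obtain ⟨k, -, h2⟩ := baire_near S (fun g ⟨n, k, hk⟩ => by
      rw [show ⇑g = k ∘ p n from funext hk]
      exact k.surjective.comp (hs n)) (fun g ⟨n, k, hk⟩ ε hε η hη => by
    have h1 : ∀ m, n ≤ m → ∀ η > 0, ∃ k' : T m ≃ₜ T 0, ∀ x, dist (k' (p m x)) (g x) < η := by
      intro m hm
      induction m, hm using Nat.le_induction with
      | base => exact fun η hη => ⟨k, fun x => by simpa [hk] using hη⟩
      | succ m _ ih =>
        intro η hη
        obtain ⟨k', h1⟩ := ih (η / 2) (half_pos hη)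
        obtain ⟨δ, hδ, h2⟩ := Metric.uniformContinuous_iff.1
          (CompactSpace.uniformContinuous_of_continuous k'.continuous) (η / 2) (half_pos hη)
        obtain ⟨e, h3⟩ := hf m δ hδ
        refine ⟨e.trans k', fun x => ?_⟩
        have h4 := h2 (h3 (p (m + 1) x))
        have := dist_triangle (k' (e (p (m + 1) x))) (k' (p m x)) (g x)
        have := h1 x
        rw [hc] at h4
        rw [Homeomorph.trans_apply]
        linarith
    have h2 : ∃ m, n ≤ m ∧ ∀ x x', p m x = p m x' → dist x x' < ε := by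
      by_contra hn
      push Not at hn
      let K : ℕ → Set (X × X) := fun m => {z | p m z.1 = p m z.2 ∧ ε ≤ dist z.1 z.2}
      have hK : ∀ m, IsClosed (K m) := fun m =>
        (isClosed_eq ((hp m).comp continuous_fst) ((hp m).comp continuous_snd)).inter
          (isClosed_le continuous_const continuous_dist)
      have hm : ∀ m, K (m + 1) ⊆ K m := fun m z hz => ⟨by rw [← hc, hz.1, hc], hz.2⟩
      obtain ⟨z, hz⟩ := IsCompact.nonempty_iInter_of_sequence_nonempty_isCompact_isClosed K hm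
        (fun m => by
          obtain ⟨x, x', h⟩ := hn (max n m) (le_max_left _ _)
          exact ⟨(x, x'), antitone_nat_of_succ_le hm (le_max_right n m) h⟩) (hK 0).isCompact hK
      have h3 := (mem_iInter.1 hz 0).2
      rw [hi _ _ fun m => (mem_iInter.1 hz m).1, dist_self] at h3
      exact h3.not_gt hε
    obtain ⟨m, h3, h4⟩ := h2
    obtain ⟨k', h5⟩ := h1 m h3 η hη
    exact ⟨⟨fun x => k' (p m x), k'.continuous.comp (hp m)⟩, ⟨m, k', fun _ => rfl⟩,
      (ContinuousMap.dist_lt_iff hη).2 h5, fun x x' e => h4 x x' (k'.injective e)⟩)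
    ⟨p 0, hp 0⟩ ⟨0, Homeomorph.refl _, fun _ => rfl⟩ η hη
  exact ⟨k, fun x => (ContinuousMap.dist_apply_le_dist (f := k) (g := ⟨p 0, hp 0⟩) x).trans_lt h2⟩

end Pool.Agent.MP_0c1703_gt.H23
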